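import Pool.Agent.KCY.Final

/-!
# MP_83476f_ag, Q1: relative semi-ampleness over the deformation space fails

There are a rational Calabi-Yau surface `X₀` (normal, projective, klt, torsion canonical class),
a semi-ample line bundle `L₀` on it and a flat proper deformation `(X, L)` of the pair `(X₀, L₀)`
over `Gm = Spec ℂ[T, T⁻¹]` such that `L` is not relatively semi-ample over any neighbourhood of
the point `1`.  More precisely `L` is not semi-ample on the fibre over `c` for every complex
number `c ≠ 0` which is not a root of unity.  The definitions are in `Pool.Agent.KCY.Stmt`.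

The example.  With `P = (x + 1) (x - 2) (x - 1) x`, `V = (y - 1) y`, `U = (y + 1) (y - 2)` and
`U_l = ((2 l - 1) y + 1) (y - 2)` let `M_l` be the span of the `P y ^ j`, `j ≤ 4`, and of the
`P / (x - a_i) Q_i`, where `a = (-1, 2, 1, 0)`, `Q_0 = U_l V` and `Q_i = U V` for `i > 0`.  The
family is `Proj` of the algebra of the powers of `M_T` over `ℂ[T, T⁻¹]`.
-/

open AlgebraicGeometry CategoryTheory

namespace Pool.Agent.Results.MP_83476f_ag.NotRelSemiample

open Pool.Agent.KCYS

theorem result :
    ∃ (X₀ : Scheme.{0}) (s : X₀ ⟶ Spec (CommRingCat.of ℂ)) (L₀ : LineBundle X₀)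
      (X : Scheme.{0}) (π : X ⟶ Gm) (L : LineBundle X) (i : X₀ ⟶ X),
      IsCalabiYau s 2 ∧ IsRationalSurface s ∧ L₀.IsSemiample ∧
      IsDeformation s L₀ π L i ∧
      ¬ IsRelSemiampleNear π L (pt 1) ∧
      ∀ c : ℂˣ, (∀ m : ℕ, 0 < m → c ^ m ≠ 1) →
        ∀ (Y : Scheme.{0}) (j : Y ⟶ X) (r : Y ⟶ Spec (CommRingCat.of ℂ)),
          IsPullback j r π (ptHom c) → ¬ (L.pullback j).IsSemiample :=
  Pool.Agent.KCY.main_statement

end Pool.Agent.Results.MP_83476f_ag.NotRelSemiample
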